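import Pool.Agent.X14.PolySum
import Pool.Agent.X14.CV

set_option autoImplicit false

namespace Pool.Agent.Results.MP_d2c11a_nt.SumMod

open Finset Pool.Agent.H434R2 Pool.Agent.H434R2.PO Pool.Agent.X14

/-- `s_n = (6n)! n! / (2 (2n+1) (3n)! (2n)!^2)` -/
def s (n : ℕ) : ℚ :=
  (((6 * n).factorial : ℚ) * (n.factorial : ℚ)) /
    (2 * (2 * (n : ℚ) + 1) * ((3 * n).factorial : ℚ) * ((2 * n).factorial : ℚ) ^ 2)

/-- `S_p = ∑_{k=1}^{p-1} s_k 108^{-k}` -/
def S (p : ℕ) : ℚ := ∑ k ∈ Ico 1 p, s k * (1 / 108) ^ k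

/-- ratio of consecutive terms -/
def rho (j : ℕ) : ℚ := ((6 * (j : ℚ) + 1) * (6 * j + 5)) / (18 * ((j : ℚ) + 1) * (2 * j + 3))

lemma s_succ (k : ℕ) : s (k + 1) * (1 / 108) ^ (k + 1) = s k * (1 / 108) ^ k * rho k := by
  unfold s rho
  have e6 : 6 * (k + 1) = 6 * k + 5 + 1 := by ring
  have e3 : 3 * (k + 1) = 3 * k + 2 + 1 := by ring
  have e2 : 2 * (k + 1) = 2 * k + 1 + 1 := by ring
  rw [e6, e3, e2]
  simp only [Nat.factorial_succ]
  push_cast
  have h1 : ((6 * k).factorial : ℚ) ≠ 0 := by positivity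
  have h2 : ((3 * k).factorial : ℚ) ≠ 0 := by positivity
  have h3 : ((2 * k).factorial : ℚ) ≠ 0 := by positivity
  have h4 : (k.factorial : ℚ) ≠ 0 := by positivity
  field_simp
  ring

lemma s_prod (k : ℕ) : s k * (1 / 108) ^ k = 1 / 2 * ∏ j ∈ range k, rho j := by
  induction k with
  | zero => simp [s]
  | succ k ih => rw [s_succ, ih, prod_range_succ]; ring

lemma s_prod_add (h i : ℕ) : s (h + i) * (1 / 108) ^ (h + i) = s h * (1 / 108) ^ h * ∏ l ∈ range i, rho (h + l) := by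
  rw [s_prod, s_prod, prod_range_add]; ring

variable {p : ℕ} [hp : Fact p.Prime]

lemma prod_cong {s : Finset ℕ} {f g : ℕ → ℚ} (hf : ∀ j ∈ s, PO p 0 (f j)) (hg : ∀ j ∈ s, PO p 0 (g j))
    (h : ∀ j ∈ s, PO p 1 (f j - g j)) : PO p 1 (∏ j ∈ s, f j - ∏ j ∈ s, g j) := by
  induction s using Finset.induction_on with
  | empty => simpa using PO.zero (p := p) 1
  | insert i s hi ih =>
    have ih' := ih (fun j hj => hf j (mem_insert_of_mem hj)) (fun j hj => hg j (mem_insert_of_mem hj))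
      (fun j hj => h j (mem_insert_of_mem hj))
    rw [prod_insert hi, prod_insert hi]
    have e : f i * ∏ j ∈ s, f j - g i * ∏ j ∈ s, g j = f i * (∏ j ∈ s, f j - ∏ j ∈ s, g j) + (f i - g i) * ∏ j ∈ s, g j := by ring
    rw [e]
    exact (PO.mul0 (hf i (mem_insert_self i s)) ih').add
      ((h i (mem_insert_self i s)).mul0' (prod_int (fun j hj => hg j (mem_insert_of_mem hj))))

lemma prod_shift_fact (c n : ℕ) : PO p 1 (∏ i ∈ range n, ((c : ℚ) * p + (i + 1)) - (n.factorial : ℚ)) := by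
  rw [← Finset.prod_range_add_one_eq_factorial]
  push_cast
  apply prod_cong
  · intro j _
    have := of_nat (p := p) (c * p + (j + 1))
    push_cast at this
    exact this
  · intro j _
    have := of_nat (p := p) (j + 1)
    push_cast at this
    exact this
  · intro j _
    have e : (c : ℚ) * p + (j + 1) - (j + 1) = c * p := by ring
    rw [e]
    exact PO.mul0 (of_nat c) p_PO

/-- factorial of `c p + n` in terms of that of `c p` -/
lemma fact_add (N n : ℕ) : ((N + n).factorial : ℚ) = (N.factorial : ℚ) * ∏ i ∈ range n, ((N : ℚ) + (i + 1)) := by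
  induction n with
  | zero => simp
  | succ n ih =>
    rw [← add_assoc, Nat.factorial_succ, prod_range_succ]
    push_cast
    rw [ih]; ring

lemma not_dvd_fact {n : ℕ} (hn : n < p) : ¬ p ∣ n.factorial := by
  intro hd
  have := (hp.out.dvd_factorial).1 hd
  omega

/-- the middle term -/
lemma s_mid {h : ℕ} (hh : p = 2 * h + 1) (h2 : 2 ≤ h) : PO p 1 (4 * s h + 1) := by
  have hp0 : (p : ℚ) ≠ 0 := by exact_mod_cast hp.out.ne_zero
  -- factorials
  set A1 : ℚ := ∏ i ∈ range (p - 1), (((1 : ℕ) : ℚ) * p + (i + 1)) with hA1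
  set A2 : ℚ := ∏ i ∈ range (p - 3), (((2 : ℕ) : ℚ) * p + (i + 1)) with hA2
  set V : ℚ := ∏ i ∈ range (h - 1), (((1 : ℕ) : ℚ) * p + (i + 1)) with hV
  set f1 : ℚ := ((p - 1).factorial : ℚ) with hf1
  have hpf : (p.factorial : ℚ) = p * f1 := by
    rw [hf1]
    have : p.factorial = p * (p - 1).factorial := (Nat.mul_factorial_pred hp.out.ne_zero).symm
    rw [this]; push_cast; ring
  have e2p : ((2 * p).factorial : ℚ) = p * f1 * (A1 * (2 * p)) := by
    have e : 2 * p = p + (p - 1 + 1) := by have := hp.out.one_lt; omega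
    rw [e, fact_add, hpf, prod_range_succ]
    rw [hA1]
    have hc : ((p - 1 : ℕ) : ℚ) = p - 1 := by rw [Nat.cast_sub hp.out.one_lt.le]; simp
    rw [hc]
    push_cast
    simp only [one_mul]
    ring
  have e6 : ((6 * h).factorial : ℚ) = p * f1 * (A1 * (2 * p)) * A2 := by
    have e : 6 * h = 2 * p + (p - 3) := by omega
    rw [e, fact_add, e2p, hA2]
    push_cast
    ring
  have e3 : ((3 * h).factorial : ℚ) = p * f1 * V := by
    have e : 3 * h = p + (h - 1) := by omega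
    rw [e, fact_add, hpf, hV]
    push_cast
    simp only [one_mul]
  have e2 : ((2 * h).factorial : ℚ) = f1 := by
    rw [hf1]; congr 2; omega
  have hfh : (h.factorial : ℚ) = h * ((h - 1).factorial : ℚ) := by
    have : h.factorial = h * (h - 1).factorial := (Nat.mul_factorial_pred (by omega)).symm
    rw [this]; push_cast; ring
  have hf13 : f1 = (p - 1) * ((p - 2) * ((p - 3).factorial : ℚ)) := by
    rw [hf1]
    have h5 : (p - 1).factorial = (p - 1) * (p - 2).factorial := by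
      have := (Nat.mul_factorial_pred (show p - 1 ≠ 0 by omega)).symm
      rwa [show p - 1 - 1 = p - 2 by omega] at this
    have h6 : (p - 2).factorial = (p - 2) * (p - 3).factorial := by
      have := (Nat.mul_factorial_pred (show p - 2 ≠ 0 by omega)).symm
      rwa [show p - 2 - 1 = p - 3 by omega] at this
    rw [h5, h6]
    push_cast
    rw [Nat.cast_sub (by omega), Nat.cast_sub (by omega)]
    push_cast; ring
  have c1 := prod_shift_fact (p := p) 1 (p - 1)
  have c2 := prod_shift_fact (p := p) 2 (p - 3)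
  have c3 := prod_shift_fact (p := p) 1 (h - 1)
  rw [← hA1] at c1
  rw [← hA2] at c2
  rw [← hV] at c3
  rw [← hf1] at c1
  -- units
  have hVint : PO p 0 V := by
    rw [hV]
    apply prod_int
    intro j _
    have := of_nat (p := p) (1 * p + (j + 1))
    push_cast at this ⊢
    exact this
  have hA2int : PO p 0 A2 := by
    rw [hA2]
    apply prod_int
    intro j _
    have := of_nat (p := p) (2 * p + (j + 1))
    push_cast at this ⊢
    exact this
  have hf1int : PO p 0 f1 := by rw [hf1]; exact of_nat _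
  have hf1u : PO p 0 f1⁻¹ := by rw [hf1]; exact inv_nat (not_dvd_fact (by omega))
  have hf10 : f1 ≠ 0 := by rw [hf1]; positivity
  have hV0 : V ≠ 0 := by
    rw [hV]
    apply prod_ne_zero_iff.2
    intro i _
    positivity
  have hVu : PO p 0 V⁻¹ := by
    have hu : PO p 0 ((((h - 1).factorial : ℕ) : ℚ)⁻¹) := inv_nat (not_dvd_fact (by omega))
    have hy : PO p 1 (-((((h - 1).factorial : ℕ) : ℚ)⁻¹ * (V - ((h - 1).factorial : ℚ)))) := (PO.mul0 hu c3).neg
    have hv := inv_one_sub hy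
    have hne := one_sub_ne hy
    have hfac : ((((h - 1).factorial : ℕ) : ℚ)) ≠ 0 := by positivity
    have e : V⁻¹ = ((((h - 1).factorial : ℕ) : ℚ)⁻¹) * (1 - -((((h - 1).factorial : ℕ) : ℚ)⁻¹ * (V - ((h - 1).factorial : ℚ))))⁻¹ := by
      rw [← mul_inv]
      congr 1
      field_simp
      ring
    rw [e]
    exact hu.mul0 hv
  have hs : s h = A1 * A2 * (h * ((h - 1).factorial : ℚ)) / (V * f1 ^ 2) := by
    unfold s
    rw [e6, e3, e2, hfh]
    have : 2 * (h : ℚ) + 1 = p := by rw [hh]; push_cast; ring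
    rw [this]
    field_simp
  have hhq : (h : ℚ) = (p - 1) / 2 := by rw [hh]; push_cast; ring
  have key : PO p 1 (4 * (A1 * A2 * (h * ((h - 1).factorial : ℚ))) + V * f1 ^ 2) := by
    have e : 4 * (A1 * A2 * (h * ((h - 1).factorial : ℚ))) + V * f1 ^ 2 =
        4 * ((h : ℚ) * ((h - 1).factorial : ℚ)) * ((A1 - f1) * A2 + f1 * (A2 - ((p - 3).factorial : ℚ))) +
        (V - ((h - 1).factorial : ℚ)) * f1 ^ 2 + (p : ℚ) * (((p - 3).factorial : ℚ) * ((h - 1).factorial : ℚ) * ((p : ℚ) - 1) * f1) := by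
      rw [hhq]
      rw [hf13]
      ring
    rw [e]
    refine PO.add (PO.add ?_ (c3.mul0' (hf1int.pow0 2))) ?_
    · refine PO.mul0 ?_ ((c1.mul0' hA2int).add (PO.mul0 hf1int c2))
      have := of_nat (p := p) (4 * (h * (h - 1).factorial))
      push_cast at this
      exact this
    · refine p_PO.mul0' (PO.mul0 (PO.mul0 (PO.mul0 (of_nat _) (of_nat _)) ?_) hf1int)
      exact (of_nat p).sub PO.one
  have e : 4 * s h + 1 = (4 * (A1 * A2 * (h * ((h - 1).factorial : ℚ))) + V * f1 ^ 2) * (V⁻¹ * f1⁻¹ ^ 2) := by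
    rw [hs]; field_simp
  rw [e]
  exact key.mul0' (hVu.mul0 (hf1u.pow0 2))

/-- the Chu–Vandermonde value for the first range -/
lemma first_value (M : ℕ) : ∏ j ∈ range M, ((3 / 2 : ℚ) - ((M : ℚ) + 1) + j) / (3 / 2 + j) = (-1) ^ M / (2 * M + 1) := by
  rw [prod_div_distrib]
  have h1 : ∏ j ∈ range M, ((3 / 2 : ℚ) - ((M : ℚ) + 1) + j) = ∏ j ∈ range M, (-1 * ((1 / 2 : ℚ) + j)) := by
    rw [← Finset.prod_range_reflect]
    apply prod_congr rfl
    intro j hj
    have hj' := mem_range.1 hj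
    rw [Nat.cast_sub (by omega), Nat.cast_sub (by omega)]
    push_cast; ring
  have h2 : ∀ n : ℕ, (∏ j ∈ range n, ((1 / 2 : ℚ) + j)) * (2 * n + 1) = ∏ j ∈ range n, ((3 / 2 : ℚ) + j) := by
    intro n
    induction n with
    | zero => simp
    | succ n ih =>
      rw [prod_range_succ, prod_range_succ, ← ih]; push_cast; ring
  have h3 : ∏ j ∈ range M, ((3 / 2 : ℚ) + j) ≠ 0 := by
    apply prod_ne_zero_iff.2; intro j _; positivity
  rw [h1, prod_mul_distrib, prod_const, card_range, div_eq_div_iff h3 (by positivity), mul_assoc, h2]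

/-- the Chu–Vandermonde value for the second range -/
lemma second_value {m : ℕ} (hm : Even m) : ∏ j ∈ range m, ((1 / 2 : ℚ) - (m : ℚ) + j) / (1 / 2 + j) = 1 := by
  rw [prod_div_distrib]
  have h1 : ∏ j ∈ range m, ((1 / 2 : ℚ) - (m : ℚ) + j) = ∏ j ∈ range m, (-1 * ((1 / 2 : ℚ) + j)) := by
    rw [← Finset.prod_range_reflect]
    apply prod_congr rfl
    intro j hj
    have hj' := mem_range.1 hj
    rw [Nat.cast_sub (by omega), Nat.cast_sub (by omega)]
    push_cast; ring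
  have h3 : ∏ j ∈ range m, ((1 / 2 : ℚ) + j) ≠ 0 := by
    apply prod_ne_zero_iff.2; intro j _; positivity
  rw [h1, prod_mul_distrib, prod_const, card_range, hm.neg_one_pow, one_mul, div_self h3]

lemma sum_cv_ext {b c : ℚ} {n N : ℕ} (h : n ≤ N) : ∑ k ∈ range (N + 1), cv b c n k = ∑ k ∈ range (n + 1), cv b c n k := by
  symm
  apply Finset.sum_subset
  · intro x hx; rw [mem_range] at *; omega
  · intro x _ hx
    rw [mem_range, not_lt] at hx
    exact cv_zero_of_lt (by omega)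

/-- units -/
lemma iu {n : ℕ} (h0 : 0 < n) (h1 : n < p) : PO p 0 ((n : ℚ)⁻¹) := by
  apply inv_nat
  intro hd
  have := Nat.le_of_dvd h0 hd
  omega

lemma i18 (h3 : 3 < p) : PO p 0 ((18 : ℚ)⁻¹) := by
  have h2 := iu (p := p) (n := 2) (by norm_num) (by omega)
  have h5 := iu (p := p) (n := 3) (by norm_num) (by omega)
  have e : (18 : ℚ)⁻¹ = ((2 : ℕ) : ℚ)⁻¹ * (((3 : ℕ) : ℚ)⁻¹ * ((3 : ℕ) : ℚ)⁻¹) := by norm_num
  rw [e]
  exact h2.mul0 (h5.mul0 h5)

lemma first_part {h M : ℕ} (h3 : 3 < p) (hh : p = 2 * h + 1) (hM : p = 6 * M + 1 ∨ p = 6 * M + 5) :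
    PO p 1 (∑ k ∈ range h, s k * (1 / 108) ^ k - 1 / 2 * ((-1) ^ M / (2 * M + 1))) := by
  have hMh : M + 1 ≤ h := by omega
  have hcv := cv_sum (K := ℚ) (b := (M : ℚ) + 1) (c := 3 / 2) (fun k => by positivity) M
  rw [first_value] at hcv
  obtain ⟨H, rfl⟩ : ∃ H, h = H + 1 := ⟨h - 1, by omega⟩
  rw [← hcv, ← sum_cv_ext (b := (M : ℚ) + 1) (c := 3 / 2) (n := M) (N := H) (by omega), mul_sum]
  apply sum_sub
  intro k hk
  have hk' := mem_range.1 hk
  rw [s_prod, ← mul_sub]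
  refine PO.mul0 (half (by omega)) ?_
  unfold cv
  have hden : ∀ j ∈ range k, PO p 0 ((18 : ℚ)⁻¹ * (((j : ℚ) + 1)⁻¹ * (2 * (j : ℚ) + 3)⁻¹)) := by
    intro j hj
    have hj' := mem_range.1 hj
    have h1 := iu (p := p) (n := j + 1) (by omega) (by omega)
    have h2 := iu (p := p) (n := 2 * j + 3) (by omega) (by omega)
    push_cast at h1 h2
    exact (i18 h3).mul0 (h1.mul0 h2)
  apply prod_cong
  · intro j hj
    unfold rho
    have e : ((6 * (j : ℚ) + 1) * (6 * j + 5)) / (18 * ((j : ℚ) + 1) * (2 * j + 3)) =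
        (((6 * j + 1) * (6 * j + 5) : ℕ) : ℚ) * ((18 : ℚ)⁻¹ * (((j : ℚ) + 1)⁻¹ * (2 * (j : ℚ) + 3)⁻¹)) := by
      push_cast
      field_simp
    rw [e]
    exact PO.mul0 (of_nat _) (hden j hj)
  · intro j hj
    have e : ((j : ℚ) - M) * (M + 1 + j) / (((j : ℚ) + 1) * (3 / 2 + j)) =
        ((36 * ((j : ℤ) - M) * (M + 1 + j) : ℤ) : ℚ) * ((18 : ℚ)⁻¹ * (((j : ℚ) + 1)⁻¹ * (2 * (j : ℚ) + 3)⁻¹)) := by
      push_cast
      have : (3 / 2 : ℚ) + j = (2 * j + 3) / 2 := by ring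
      rw [this]
      field_simp
      ring
    rw [e]
    exact PO.mul0 (of_int _) (hden j hj)
  · intro j hj
    unfold rho
    have e : ((6 * (j : ℚ) + 1) * (6 * j + 5)) / (18 * ((j : ℚ) + 1) * (2 * j + 3)) -
        ((j : ℚ) - M) * (M + 1 + j) / (((j : ℚ) + 1) * (3 / 2 + j)) =
        (((6 * M + 1) * (6 * M + 5) : ℕ) : ℚ) * ((18 : ℚ)⁻¹ * (((j : ℚ) + 1)⁻¹ * (2 * (j : ℚ) + 3)⁻¹)) := by
      push_cast
      have : (3 / 2 : ℚ) + j = (2 * j + 3) / 2 := by ring
      rw [this]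
      field_simp
      ring
    rw [e]
    refine PO.mul0' ?_ (hden j hj)
    push_cast
    rcases hM with hM | hM
    · have : (6 * (M : ℚ) + 1) = p := by rw [hM]; push_cast; ring
      rw [this]
      refine p_PO.mul0' ?_
      have := of_nat (p := p) (6 * M + 5)
      push_cast at this; exact this
    · have : (6 * (M : ℚ) + 5) = p := by rw [hM]; push_cast; ring
      rw [this]
      refine PO.mul0 ?_ p_PO
      have := of_nat (p := p) (6 * M + 1)
      push_cast at this; exact this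

lemma second_part {h m : ℕ} (h3 : 3 < p) (hh : p = 2 * h + 1) (hm : Even m) (hmh : m ≤ h)
    (hdiv : (p : ℤ) ∣ 9 * (m : ℤ) ^ 2 - 1) :
    PO p 1 (∑ i ∈ range (h + 1), s (h + i) * (1 / 108) ^ (h + i) - s h * (1 / 108) ^ h) := by
  have hcv := cv_sum (K := ℚ) (b := (m : ℚ)) (c := 1 / 2) (fun k => by positivity) m
  rw [second_value hm, ← sum_cv_ext (b := (m : ℚ)) (c := 1 / 2) (n := m) (N := h) hmh] at hcv
  have hpq : (p : ℚ) = 2 * h + 1 := by rw [hh]; push_cast; ring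
  have hsint : PO p 0 (s h * (1 / 108) ^ h) := by
    have h1 := s_mid (p := p) hh (by omega)
    have h5 := iu (p := p) (n := 2) (by norm_num) (by omega)
    have h6 := iu (p := p) (n := 3) (by norm_num) (by omega)
    refine PO.mul0 ?_ (PO.pow0 ?_ h)
    · have e : s h = ((2 : ℕ) : ℚ)⁻¹ * ((2 : ℕ) : ℚ)⁻¹ * ((4 * s h + 1) - 1) := by push_cast; ring
      rw [e]
      exact (h5.mul0 h5).mul0 ((h1.mono (by omega)).sub PO.one)
    · have e : (1 / 108 : ℚ) = (18 : ℚ)⁻¹ * (((2 : ℕ) : ℚ)⁻¹ * ((3 : ℕ) : ℚ)⁻¹) := by norm_num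
      rw [e]
      exact (i18 h3).mul0 (h5.mul0 h6)
  have e0 : ∑ i ∈ range (h + 1), s (h + i) * (1 / 108) ^ (h + i) - s h * (1 / 108) ^ h =
      s h * (1 / 108) ^ h * (∑ i ∈ range (h + 1), ∏ l ∈ range i, rho (h + l) - ∑ i ∈ range (h + 1), cv (m : ℚ) (1 / 2) m i) := by
    rw [hcv, mul_sub, mul_one, mul_sum]
    congr 1
    apply sum_congr rfl
    intro i _
    exact s_prod_add h i
  rw [e0]
  refine PO.mul0 hsint ?_
  apply sum_sub
  intro i hi
  have hi' := mem_range.1 hi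
  unfold cv
  have u1 : ∀ l ∈ range i, PO p 0 ((2 * (l : ℚ) + 1)⁻¹) := by
    intro l hl
    have hl' := mem_range.1 hl
    have := iu (p := p) (n := 2 * l + 1) (by omega) (by omega)
    push_cast at this; exact this
  have u2 : ∀ l ∈ range i, PO p 0 ((2 * (l : ℚ) + 2)⁻¹) := by
    intro l hl
    have hl' := mem_range.1 hl
    have := iu (p := p) (n := 2 * l + 2) (by omega) (by omega)
    push_cast at this; exact this
  have u3 : ∀ l ∈ range i, PO p 0 (((p : ℚ) + 1 + 2 * l)⁻¹) := by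
    intro l hl
    have hl' := mem_range.1 hl
    have h5 : ¬ p ∣ p + 1 + 2 * l := by
      intro hd
      have := (Nat.dvd_add_right (dvd_refl p)).1 (show p ∣ p + (1 + 2 * l) by rwa [← add_assoc])
      have := Nat.le_of_dvd (by omega) this
      omega
    have := inv_nat (p := p) h5
    push_cast at this; exact this
  have u4 : ∀ l ∈ range i, PO p 0 (((p : ℚ) + 2 + 2 * l)⁻¹) := by
    intro l hl
    have hl' := mem_range.1 hl
    have h5 : ¬ p ∣ p + 2 + 2 * l := by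
      intro hd
      have := (Nat.dvd_add_right (dvd_refl p)).1 (show p ∣ p + (2 + 2 * l) by rwa [← add_assoc])
      have := Nat.le_of_dvd (by omega) this
      omega
    have := inv_nat (p := p) h5
    push_cast at this; exact this
  have i9 : PO p 0 ((9 : ℚ)⁻¹) := by
    have h6 := iu (p := p) (n := 3) (by norm_num) (by omega)
    have e : (9 : ℚ)⁻¹ = ((3 : ℕ) : ℚ)⁻¹ * ((3 : ℕ) : ℚ)⁻¹ := by norm_num
    rw [e]; exact h6.mul0 h6
  have er : ∀ l : ℕ, rho (h + l) = ((3 * (p : ℚ) - 2 + 6 * l) * (3 * p + 2 + 6 * l)) * ((9 : ℚ)⁻¹ * (((p : ℚ) + 1 + 2 * l)⁻¹ * ((p : ℚ) + 2 + 2 * l)⁻¹)) := by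
    intro l
    unfold rho
    push_cast
    have e1 : (p : ℚ) + 1 + 2 * l = 2 * ((h : ℚ) + l + 1) := by rw [hpq]; ring
    have e2 : (p : ℚ) + 2 + 2 * l = 2 * ((h : ℚ) + l) + 3 := by rw [hpq]; ring
    rw [e1, e2, hpq]
    have n1 : (h : ℚ) + l + 1 ≠ 0 := by positivity
    have n2 : 2 * ((h : ℚ) + l) + 3 ≠ 0 := by positivity
    field_simp
    ring
  have eg : ∀ l : ℕ, ((l : ℚ) - m) * (m + l) / (((l : ℚ) + 1) * (1 / 2 + l)) =
      (4 * ((l : ℚ) ^ 2 - m ^ 2)) * ((2 * (l : ℚ) + 1)⁻¹ * (2 * (l : ℚ) + 2)⁻¹) := by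
    intro l
    have : (1 / 2 : ℚ) + l = (2 * l + 1) / 2 := by ring
    rw [this]
    have n1 : 2 * (l : ℚ) + 1 ≠ 0 := by positivity
    have n2 : (l : ℚ) + 1 ≠ 0 := by positivity
    have n3 : 2 * (l : ℚ) + 2 ≠ 0 := by positivity
    field_simp
    ring
  apply prod_cong
  · intro l hl
    rw [er]
    refine PO.mul0 ?_ (i9.mul0 ((u3 l hl).mul0 (u4 l hl)))
    have := of_int (p := p) ((3 * p - 2 + 6 * l) * (3 * p + 2 + 6 * l))
    push_cast at this; exact this
  · intro l hl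
    rw [eg]
    refine PO.mul0 ?_ ((u1 l hl).mul0 (u2 l hl))
    have := of_int (p := p) (4 * ((l : ℤ) ^ 2 - m ^ 2))
    push_cast at this; exact this
  · intro l hl
    rw [er, eg]
    have n1 : 2 * (l : ℚ) + 1 ≠ 0 := by positivity
    have n3 : 2 * (l : ℚ) + 2 ≠ 0 := by positivity
    have n4 : (p : ℚ) + 1 + 2 * l ≠ 0 := by positivity
    have n5 : (p : ℚ) + 2 + 2 * l ≠ 0 := by positivity
    have e : ((3 * (p : ℚ) - 2 + 6 * l) * (3 * p + 2 + 6 * l)) * ((9 : ℚ)⁻¹ * (((p : ℚ) + 1 + 2 * l)⁻¹ * ((p : ℚ) + 2 + 2 * l)⁻¹)) -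
        (4 * ((l : ℚ) ^ 2 - m ^ 2)) * ((2 * (l : ℚ) + 1)⁻¹ * (2 * (l : ℚ) + 2)⁻¹) =
        ((p : ℚ) * (((9 * p + 36 * l) * (2 * l + 2) * (2 * l + 1) - 36 * ((l : ℤ) ^ 2 - m ^ 2) * (4 * l + 3 + p) : ℤ) : ℚ) +
          ((9 * (m : ℤ) ^ 2 - 1 : ℤ) : ℚ) * ((4 * (2 * l + 1) * (2 * l + 2) : ℤ) : ℚ)) *
        ((9 : ℚ)⁻¹ * (((2 * (l : ℚ) + 1)⁻¹ * (2 * (l : ℚ) + 2)⁻¹) * (((p : ℚ) + 1 + 2 * l)⁻¹ * ((p : ℚ) + 2 + 2 * l)⁻¹))) := by
      push_cast
      field_simp
      ring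
    rw [e]
    refine PO.mul0' ?_ (i9.mul0 (((u1 l hl).mul0 (u2 l hl)).mul0 ((u3 l hl).mul0 (u4 l hl))))
    refine (p_PO.mul0' (of_int _)).add (PO.mul0' ?_ (of_int _))
    apply PO_of_dvd
    rwa [pow_one]

/-- the quadratic character of `3` -/
lemma three_pow {h : ℕ} (h3 : 3 < p) (hh : p = 2 * h + 1) :
    ((3 : ZMod p)) ^ h = if p % 12 = 1 ∨ p % 12 = 11 then 1 else -1 := by
  have h1 := legendreSym.eq_pow p 3
  have e : p / 2 = h := by omega
  rw [e] at h1
  push_cast at h1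
  rw [← h1]
  have hqr := legendreSym.quadratic_reciprocity' (p := 3) (q := p) (by norm_num) (by omega)
  push_cast at hqr
  rw [hqr, e]
  rw [one_mul, legendreSym.mod]
  have hp3 : p % 3 ≠ 0 := by
    intro h5
    have := (Nat.prime_dvd_prime_iff_eq Nat.prime_three hp.out).1 (Nat.dvd_of_mod_eq_zero h5)
    omega
  have l1 : legendreSym 3 1 = 1 := by simp
  have l2 : legendreSym 3 2 = -1 := by decide
  have hcase : (p % 12 = 1 ∨ p % 12 = 5) ∨ (p % 12 = 7 ∨ p % 12 = 11) := by omega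
  rcases hcase with (h5 | h5) | (h5 | h5)
  · have hc : ((p : ℤ) % ((3 : ℕ) : ℤ)) = 1 := by omega
    have he : Even h := ⟨h / 2, by omega⟩
    rw [hc, l1, he.neg_one_pow, if_pos (Or.inl h5)]; simp
  · have hc : ((p : ℤ) % ((3 : ℕ) : ℤ)) = 2 := by omega
    have he : Even h := ⟨h / 2, by omega⟩
    rw [hc, l2, he.neg_one_pow, if_neg (by omega)]; simp
  · have hc : ((p : ℤ) % ((3 : ℕ) : ℤ)) = 1 := by omega
    have he : Odd h := ⟨h / 2, by omega⟩
    rw [hc, l1, he.neg_one_pow, if_neg (by omega)]; simp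
  · have hc : ((p : ℤ) % ((3 : ℕ) : ℤ)) = 2 := by omega
    have he : Odd h := ⟨h / 2, by omega⟩
    rw [hc, l2, he.neg_one_pow, if_pos (Or.inr h5)]; simp

/-- the value of the sum mod `p` -/
lemma S_value (h3 : 3 < p) : PO p 1 (S p - if p % 12 = 1 ∨ p % 12 = 11 then 0 else -1) := by
  have hodd : p % 2 = 1 := by
    rcases hp.out.eq_two_or_odd with h | h
    · omega
    · exact h
  have hp3 : p % 3 ≠ 0 := by
    intro h5
    have := (Nat.prime_dvd_prime_iff_eq Nat.prime_three hp.out).1 (Nat.dvd_of_mod_eq_zero h5)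
    omega
  obtain ⟨h, hh⟩ : ∃ h, p = 2 * h + 1 := ⟨p / 2, by omega⟩
  have hpq : (p : ℚ) = 2 * h + 1 := by rw [hh]; push_cast; ring
  -- the parameter `M`
  obtain ⟨M, hM⟩ : ∃ M, p = 6 * M + 1 ∨ p = 6 * M + 5 := ⟨p / 6, by omega⟩
  obtain ⟨m, hmeven, hmh, hmdiv⟩ : ∃ m : ℕ, Even m ∧ m ≤ h ∧ (p : ℤ) ∣ 9 * (m : ℤ) ^ 2 - 1 := by
    rcases hM with hM | hM
    · refine ⟨2 * M, ⟨M, by ring⟩, by omega, ⟨6 * M - 1, ?_⟩⟩
      rw [hM]; push_cast; ring
    · refine ⟨2 * (M + 1), ⟨M + 1, by ring⟩, by omega, ⟨6 * M + 7, ?_⟩⟩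
      rw [hM]; push_cast; ring
  have f1 := first_part (p := p) h3 hh hM
  have f2 := second_part (p := p) h3 hh hmeven hmh hmdiv
  have f3 := s_mid (p := p) hh (by omega)
  have f4 := three_pow (p := p) h3 hh
  -- split the sum
  have hS : S p = ∑ k ∈ range h, s k * (1 / 108) ^ k + ∑ i ∈ range (h + 1), s (h + i) * (1 / 108) ^ (h + i) - 1 / 2 := by
    have e1 : ∑ k ∈ range p, s k * (1 / 108) ^ k = s 0 * (1 / 108) ^ 0 + S p := by
      unfold S
      rw [Finset.range_eq_Ico, Finset.sum_eq_sum_Ico_succ_bot hp.out.pos]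
    have e2 : ∑ k ∈ range p, s k * (1 / 108) ^ k = ∑ k ∈ range h, s k * (1 / 108) ^ k + ∑ i ∈ range (h + 1), s (h + i) * (1 / 108) ^ (h + i) := by
      have : range p = range (h + (h + 1)) := by congr 1; omega
      rw [this, sum_range_add]
    have e3 : s 0 * (1 / 108) ^ 0 = 1 / 2 := by simp [s]
    rw [e2, e3] at e1
    rw [e1]; ring
  -- the character
  set χ : ℤ := if p % 12 = 1 ∨ p % 12 = 11 then 1 else -1 with hχ
  have hχ2 : χ * χ = 1 := by rw [hχ]; split_ifs <;> norm_num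
  have f5 : PO p 1 ((((3 ^ h * 6 ^ (2 * h) - χ : ℤ)) : ℚ)) := by
    apply PO_of_zmod
    push_cast
    rw [f4]
    have h6 : (6 : ZMod p) ^ (2 * h) = 1 := by
      have : 2 * h = p - 1 := by omega
      rw [this]
      apply ZMod.pow_card_sub_one_eq_one
      intro h0
      have h7 : ((6 : ℕ) : ZMod p) = 0 := by exact_mod_cast h0
      rw [ZMod.natCast_eq_zero_iff] at h7
      have h8 : p ∣ 2 * 3 := h7
      rcases (Nat.Prime.dvd_mul hp.out).1 h8 with h9 | h9
      · have := Nat.le_of_dvd (by norm_num) h9; omega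
      · have := Nat.le_of_dvd (by norm_num) h9; omega
    rw [h6, hχ]
    split_ifs <;> simp
  have i108 : PO p 0 ((1 / 108 : ℚ)) := by
    have h5 := iu (p := p) (n := 2) (by norm_num) (by omega)
    have h6 := iu (p := p) (n := 3) (by norm_num) (by omega)
    have e : (1 / 108 : ℚ) = (18 : ℚ)⁻¹ * (((2 : ℕ) : ℚ)⁻¹ * ((3 : ℕ) : ℚ)⁻¹) := by norm_num
    rw [e]
    exact (i18 h3).mul0 (h5.mul0 h6)
  have f6 : PO p 1 ((1 / 108 : ℚ) ^ h - χ) := by
    have e : (1 / 108 : ℚ) ^ h - χ = -((1 / 108 : ℚ) ^ h * (χ * (((3 ^ h * 6 ^ (2 * h) - χ : ℤ)) : ℚ))) := by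
      have e1 : ((3 : ℚ) ^ h * 6 ^ (2 * h)) = 108 ^ h := by
        rw [pow_mul, ← mul_pow]; norm_num
      push_cast
      rw [e1]
      have e2 : (1 / 108 : ℚ) ^ h * 108 ^ h = 1 := by rw [← mul_pow]; norm_num
      have e3 : (χ : ℚ) * χ = 1 := by exact_mod_cast hχ2
      linear_combination (χ : ℚ) * e2 - (1 / 108 : ℚ) ^ h * e3
    rw [e]
    exact (PO.mul0 (i108.pow0 h) (PO.mul0 (of_int _) f5)).neg
  have i4 : PO p 0 ((1 / 4 : ℚ)) := by
    have h5 := iu (p := p) (n := 2) (by norm_num) (by omega)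
    have e : (1 / 4 : ℚ) = ((2 : ℕ) : ℚ)⁻¹ * ((2 : ℕ) : ℚ)⁻¹ := by norm_num
    rw [e]; exact h5.mul0 h5
  have f7 : PO p 1 (s h * (1 / 108) ^ h + χ / 4) := by
    have e : s h * (1 / 108) ^ h + χ / 4 = 1 / 4 * ((4 * s h + 1) * (1 / 108) ^ h - ((1 / 108 : ℚ) ^ h - χ)) := by ring
    rw [e]
    exact PO.mul0 i4 ((f3.mul0' (i108.pow0 h)).sub f6)
  -- the first value
  have f8 : PO p 1 (1 / 2 * ((-1) ^ M / (2 * M + 1)) - (1 / 2 + χ / 4 + if p % 12 = 1 ∨ p % 12 = 11 then 0 else -1)) := by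
    have hinv : ∀ c : ℤ, (3 * (2 * (M : ℚ) + 1) = p + 2 * c) → (c * c = 1) → PO p 1 (1 / 2 * ((-1) ^ M / (2 * M + 1)) - 3 / 4 * ((-1) ^ M * c)) := by
      intro c hc1 hc2
      have hn : (2 * (M : ℚ) + 1) ≠ 0 := by positivity
      have e : 1 / 2 * ((-1) ^ M / (2 * (M : ℚ) + 1)) - 3 / 4 * ((-1) ^ M * c) =
          -((p : ℚ) * ((-1) ^ M * c * (1 / 4) * (2 * (M : ℚ) + 1)⁻¹)) := by
        have hc3 : (c : ℚ) * c = 1 := by exact_mod_cast hc2
        have hp' : (p : ℚ) = 3 * (2 * (M : ℚ) + 1) - 2 * c := by linarith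
        rw [hp']
        field_simp
        linear_combination (-4 : ℚ) * hc3
      rw [e]
      refine (p_PO.mul0' (PO.mul0 (PO.mul0 (PO.mul0 ?_ (of_int c)) i4) ?_)).neg
      · have := of_int (p := p) ((-1) ^ M)
        push_cast at this; exact this
      · have := iu (p := p) (n := 2 * M + 1) (by omega) (by omega)
        push_cast at this; exact this
    have hcase : (p % 12 = 1 ∨ p % 12 = 5) ∨ (p % 12 = 7 ∨ p % 12 = 11) := by omega
    rcases hcase with (h5 | h5) | (h5 | h5)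
    · have hMe : Even M := ⟨M / 2, by omega⟩
      have hM' : p = 6 * M + 1 := by omega
      have := hinv 1 (by rw [hM']; push_cast; ring) (by norm_num)
      rw [hMe.neg_one_pow] at this ⊢
      rw [hχ, if_pos (Or.inl h5), if_pos (Or.inl h5)]
      convert this using 1
      push_cast; ring
    · have hMe : Even M := ⟨M / 2, by omega⟩
      have hM' : p = 6 * M + 5 := by omega
      have := hinv (-1) (by rw [hM']; push_cast; ring) (by norm_num)
      rw [hMe.neg_one_pow] at this ⊢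
      rw [hχ, if_neg (by omega), if_neg (by omega)]
      convert this using 1
      push_cast; ring
    · have hMe : Odd M := ⟨M / 2, by omega⟩
      have hM' : p = 6 * M + 1 := by omega
      have := hinv 1 (by rw [hM']; push_cast; ring) (by norm_num)
      rw [hMe.neg_one_pow] at this ⊢
      rw [hχ, if_neg (by omega), if_neg (by omega)]
      convert this using 1
      push_cast; ring
    · have hMe : Odd M := ⟨M / 2, by omega⟩
      have hM' : p = 6 * M + 5 := by omega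
      have := hinv (-1) (by rw [hM']; push_cast; ring) (by norm_num)
      rw [hMe.neg_one_pow] at this ⊢
      rw [hχ, if_pos (Or.inr h5), if_pos (Or.inr h5)]
      convert this using 1
      push_cast; ring
  rw [hS]
  have e : ∀ A B V W X : ℚ, A + B - 1 / 2 - X = (A - V) + (B - W) + (W + χ / 4) + (V - (1 / 2 + χ / 4 + X)) := by
    intros; ring
  rw [e _ _ (1 / 2 * ((-1) ^ M / (2 * M + 1))) (s h * (1 / 108) ^ h) _]
  exact ((f1.add f2).add f7).add f8

/-- **Q1.** For every prime `p > 3`: `S_p ≡ 0 (mod p)` if `p ≡ 1, 11 (mod 12)` and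
`S_p ≡ -1 (mod p)` if `p ≡ 5, 7 (mod 12)`. -/
theorem result : ∀ p : ℕ, p.Prime → 3 < p →
    ((p % 12 = 1 ∨ p % 12 = 11) → ¬ p ∣ (S p / (p : ℚ)).den) ∧
    ((p % 12 = 5 ∨ p % 12 = 7) → ¬ p ∣ ((S p - (-1)) / (p : ℚ)).den) := by
  intro p hpp h3
  have hp : Fact p.Prime := ⟨hpp⟩
  have h := S_value (p := p) h3
  constructor
  · intro h1
    rw [if_pos h1, sub_zero] at h
    have := not_dvd_den h
    rwa [pow_one] at this
  · intro h1
    rw [if_neg (by omega)] at h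
    have := not_dvd_den h
    rwa [pow_one] at this

end Pool.Agent.Results.MP_d2c11a_nt.SumMod
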